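import Mathlib
import Pool.Agent.Hhelper79.PL.All

set_option autoImplicit false

/-!
# The maximum numbers of disjoint transversals of latin squares of even order

For every even order `n ≥ 10` the set of values `λ(L)` (the maximum size of a family of pairwise
disjoint transversals of a latin square `L` of order `n`) is exactly `{0, 1, ..., n} \ {n - 1}`.
-/

namespace Pool.Agent.Results.MP_46dc5d_co.Spectrum

/-- A latin square of order `n`: `symbol r c` is the symbol in the cell in row `r` and column `c`;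
each symbol occurs exactly once in every row and exactly once in every column. -/
structure LatinSquare (n : ℕ) where
  symbol : Fin n → Fin n → Fin n
  row : ∀ r s : Fin n, ∃! c : Fin n, symbol r c = s
  column : ∀ c s : Fin n, ∃! r : Fin n, symbol r c = s

/-- The entries of a latin square: the triples (row, column, symbol in that cell). -/
def LatinSquare.entries {n : ℕ} (L : LatinSquare n) : Set (Fin n × Fin n × Fin n) :=
  {e | L.symbol e.1 e.2.1 = e.2.2}

/-- A transversal: a set of `n` entries containing exactly one entry from each row, exactly one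
from each column and exactly one carrying each symbol. -/
structure LatinSquare.IsTransversal {n : ℕ} (L : LatinSquare n)
    (T : Finset (Fin n × Fin n × Fin n)) : Prop where
  entries : ∀ e ∈ T, e ∈ L.entries
  card : T.card = n
  row : ∀ r : Fin n, ∃! e, e ∈ T ∧ e.1 = r
  column : ∀ c : Fin n, ∃! e, e ∈ T ∧ e.2.1 = c
  symbol : ∀ s : Fin n, ∃! e, e ∈ T ∧ e.2.2 = s

/-- `m` is the maximum size of a family of pairwise disjoint transversals of `L`. -/
def LatinSquare.Lambda {n : ℕ} (L : LatinSquare n) (m : ℕ) : Prop :=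
  IsGreatest {k : ℕ | ∃ F : Finset (Finset (Fin n × Fin n × Fin n)), F.card = k ∧
    (∀ T ∈ F, L.IsTransversal T) ∧
    (∀ T ∈ F, ∀ T' ∈ F, T ≠ T' → Disjoint T T')} m

open Function

variable {n : ℕ}

/-- the set of entries given by a permutation -/
def ofPerm (L : LatinSquare n) (σ : Equiv.Perm (Fin n)) : Finset (Fin n × Fin n × Fin n) :=
  Finset.univ.image (fun i => (i, σ i, L.symbol i (σ i)))

theorem mem_ofPerm (L : LatinSquare n) (σ : Equiv.Perm (Fin n)) (e : Fin n × Fin n × Fin n) :
    e ∈ ofPerm L σ ↔ e.2.1 = σ e.1 ∧ e.2.2 = L.symbol e.1 (σ e.1) := by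
  unfold ofPerm
  simp only [Finset.mem_image, Finset.mem_univ, true_and]
  constructor
  · rintro ⟨i, rfl⟩
    exact ⟨rfl, rfl⟩
  · rintro ⟨h1, h2⟩
    exact ⟨e.1, Prod.ext rfl (Prod.ext h1.symm h2.symm)⟩

theorem ofPerm_transversal (L : LatinSquare n) (σ : Equiv.Perm (Fin n))
    (hσ : Injective (fun i => L.symbol i (σ i))) : L.IsTransversal (ofPerm L σ) := by
  have hbij : Bijective (fun i => L.symbol i (σ i)) := Finite.injective_iff_bijective.mp hσ
  refine ⟨?_, ?_, ?_, ?_, ?_⟩
  · intro e he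
    rw [mem_ofPerm] at he
    show L.symbol e.1 e.2.1 = e.2.2
    rw [he.1, he.2]
  · unfold ofPerm
    rw [Finset.card_image_of_injective]
    · simp
    · intro i j h
      exact (Prod.ext_iff.mp h).1
  · intro r
    refine ⟨(r, σ r, L.symbol r (σ r)), ⟨(mem_ofPerm _ _ _).2 ⟨rfl, rfl⟩, rfl⟩, ?_⟩
    rintro e ⟨he, rfl⟩
    rw [mem_ofPerm] at he
    exact Prod.ext rfl (Prod.ext he.1 he.2)
  · intro c
    refine ⟨(σ.symm c, c, L.symbol (σ.symm c) c),
      ⟨(mem_ofPerm _ _ _).2 ⟨by simp, by simp⟩, rfl⟩, ?_⟩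
    rintro e ⟨he, hc⟩
    rw [mem_ofPerm] at he
    have h1 : e.1 = σ.symm c := by
      rw [Equiv.eq_symm_apply, ← he.1, hc]
    refine Prod.ext h1 (Prod.ext hc ?_)
    show e.2.2 = L.symbol (σ.symm c) c
    rw [he.2, h1, Equiv.apply_symm_apply]
  · intro s
    obtain ⟨i, hi⟩ := hbij.2 s
    refine ⟨(i, σ i, L.symbol i (σ i)), ⟨(mem_ofPerm _ _ _).2 ⟨rfl, rfl⟩, hi⟩, ?_⟩
    rintro e ⟨he, hs⟩
    rw [mem_ofPerm] at he
    have h1 : e.1 = i := by
      apply hσ
      show L.symbol e.1 (σ e.1) = L.symbol i (σ i)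
      rw [← he.2, hs]
      exact hi.symm
    refine Prod.ext h1 (Prod.ext ?_ ?_)
    · rw [he.1, h1]
    · rw [he.2, h1]

theorem exists_perm (L : LatinSquare n) (T : Finset (Fin n × Fin n × Fin n))
    (hT : L.IsTransversal T) :
    ∃ σ : Equiv.Perm (Fin n), Injective (fun i => L.symbol i (σ i)) ∧ ofPerm L σ = T := by
  choose f hf hfu using fun r => hT.row r
  have hinj : Injective (fun r => (f r).2.1) := by
    intro r r' h
    have h1 := (hT.column (f r).2.1).unique ⟨(hf r).1, rfl⟩ ⟨(hf r').1, h.symm⟩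
    rw [← (hf r).2, ← (hf r').2, h1]
  let σ : Equiv.Perm (Fin n) := Equiv.ofBijective _ (Finite.injective_iff_bijective.mp hinj)
  have hσ : ∀ r, σ r = (f r).2.1 := fun r => rfl
  have hsym : ∀ r, L.symbol r (σ r) = (f r).2.2 := by
    intro r
    have := hT.entries (f r) (hf r).1
    have h2 : L.symbol (f r).1 (f r).2.1 = (f r).2.2 := this
    rw [(hf r).2] at h2
    rw [hσ, h2]
  refine ⟨σ, ?_, ?_⟩
  · intro r r' h
    have h' : (f r).2.2 = (f r').2.2 := by
      rw [← hsym, ← hsym]
      exact h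
    have h1 := (hT.symbol (f r).2.2).unique ⟨(hf r).1, rfl⟩ ⟨(hf r').1, h'.symm⟩
    rw [← (hf r).2, ← (hf r').2, h1]
  · ext e
    rw [mem_ofPerm]
    constructor
    · rintro ⟨h1, h2⟩
      have : e = f e.1 := by
        refine Prod.ext ((hf e.1).2).symm (Prod.ext ?_ ?_)
        · rw [h1, hσ]
        · rw [h2, hsym]
      rw [this]
      exact (hf e.1).1
    · intro he
      have : e = f e.1 := hfu e.1 e ⟨he, rfl⟩
      constructor
      · rw [hσ, ← this]
      · rw [hsym, ← this]

theorem disjoint_iff (L : LatinSquare n) (σ τ : Equiv.Perm (Fin n)) :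
    Disjoint (ofPerm L σ) (ofPerm L τ) ↔ ∀ i, σ i ≠ τ i := by
  rw [Finset.disjoint_left]
  constructor
  · intro h i hi
    apply h (a := (i, σ i, L.symbol i (σ i)))
    · exact (mem_ofPerm _ _ _).2 ⟨rfl, rfl⟩
    · exact (mem_ofPerm _ _ _).2 ⟨hi, by rw [hi]⟩
  · intro h e h1 h2
    rw [mem_ofPerm] at h1 h2
    exact h e.1 (h1.1.symm.trans h2.1)

theorem ofPerm_injective (L : LatinSquare n) : Injective (ofPerm L) := by
  intro σ τ h
  ext i
  have h1 : (i, σ i, L.symbol i (σ i)) ∈ ofPerm L σ := (mem_ofPerm _ _ _).2 ⟨rfl, rfl⟩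
  rw [h, mem_ofPerm] at h1
  exact congrArg Fin.val h1.1

/-- families of permutations and families of transversals -/
theorem family_iff (L : LatinSquare n) (k : ℕ) :
    (∃ F : Finset (Finset (Fin n × Fin n × Fin n)), F.card = k ∧
      (∀ T ∈ F, L.IsTransversal T) ∧ (∀ T ∈ F, ∀ T' ∈ F, T ≠ T' → Disjoint T T')) ↔
    ∃ S : Finset (Equiv.Perm (Fin n)), S.card = k ∧
      (∀ σ ∈ S, Injective (fun i => L.symbol i (σ i))) ∧
      (∀ σ ∈ S, ∀ τ ∈ S, σ ≠ τ → ∀ i, σ i ≠ τ i) := by
  classical
  constructor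
  · rintro ⟨F, hF, hT, hd⟩
    refine ⟨Finset.univ.filter (fun σ => ofPerm L σ ∈ F), ?_, ?_, ?_⟩
    · rw [← hF]
      apply Finset.card_bij (fun σ _ => ofPerm L σ)
      · intro σ hσ
        exact (Finset.mem_filter.mp hσ).2
      · intro σ _ τ _ h
        exact ofPerm_injective L h
      · intro T hTF
        obtain ⟨σ, _, hσ⟩ := exists_perm L T (hT T hTF)
        exact ⟨σ, Finset.mem_filter.mpr ⟨Finset.mem_univ _, by rw [hσ]; exact hTF⟩, hσ⟩
    · intro σ hσ
      obtain ⟨τ, hτ, hτ'⟩ := exists_perm L _ (hT _ (Finset.mem_filter.mp hσ).2)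
      rw [← ofPerm_injective L hτ']
      exact hτ
    · intro σ hσ τ hτ hne
      rw [← disjoint_iff]
      exact hd _ (Finset.mem_filter.mp hσ).2 _ (Finset.mem_filter.mp hτ).2
        (fun h => hne (ofPerm_injective L h))
  · rintro ⟨S, hS, hinj, hd⟩
    refine ⟨S.image (ofPerm L), ?_, ?_, ?_⟩
    · rw [Finset.card_image_of_injective _ (ofPerm_injective L), hS]
    · intro T hT
      obtain ⟨σ, hσ, rfl⟩ := Finset.mem_image.mp hT
      exact ofPerm_transversal L σ (hinj σ hσ)
    · intro T hT T' hT' hne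
      obtain ⟨σ, hσ, rfl⟩ := Finset.mem_image.mp hT
      obtain ⟨τ, hτ, rfl⟩ := Finset.mem_image.mp hT'
      rw [disjoint_iff]
      exact hd σ hσ τ hτ (fun h => hne (by rw [h]))

/-- at most `n` disjoint transversals -/
theorem card_le (hn : 0 < n) (S : Finset (Equiv.Perm (Fin n)))
    (hd : ∀ σ ∈ S, ∀ τ ∈ S, σ ≠ τ → ∀ i, σ i ≠ τ i) : S.card ≤ n := by
  have h : S.card ≤ (Finset.univ : Finset (Fin n)).card := by
    apply Finset.card_le_card_of_injOn (fun σ => σ ⟨0, hn⟩) (fun _ _ => Finset.mem_univ _)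
    intro σ hσ τ hτ h
    by_contra hne
    exact hd σ hσ τ hτ hne _ h
  simpa using h

/-- `n - 1` disjoint transversals extend to `n` disjoint ones -/
theorem extend (L : LatinSquare n) (S : Finset (Equiv.Perm (Fin n))) (hS : S.card + 1 = n)
    (hinj : ∀ σ ∈ S, Injective (fun i => L.symbol i (σ i)))
    (hd : ∀ σ ∈ S, ∀ τ ∈ S, σ ≠ τ → ∀ i, σ i ≠ τ i) :
    ∃ τ : Equiv.Perm (Fin n), Injective (fun i => L.symbol i (τ i)) ∧
      ∀ σ ∈ S, ∀ i, σ i ≠ τ i := by
  classical
  -- a family of `n - 1` distinct elements misses exactly one element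
  have key : ∀ g : Equiv.Perm (Fin n) → Fin n, (∀ σ ∈ S, ∀ τ ∈ S, g σ = g τ → σ = τ) →
      ∃! x : Fin n, ∀ σ ∈ S, g σ ≠ x := by
    intro g hg
    have hc : (S.image g).card = S.card := Finset.card_image_of_injOn (fun σ hσ τ hτ h =>
      hg σ hσ τ hτ h)
    have hc2 : ((S.image g)ᶜ).card = 1 := by
      rw [Finset.card_compl, hc, Fintype.card_fin]
      omega
    obtain ⟨x, hx⟩ := Finset.card_eq_one.mp hc2
    have hmem : ∀ y, (∀ σ ∈ S, g σ ≠ y) ↔ y ∈ (S.image g)ᶜ := by
      intro y
      simp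
    refine ⟨x, (hmem x).2 (by rw [hx]; simp), ?_⟩
    intro y hy
    have := (hmem y).1 hy
    rw [hx] at this
    simpa using this
  have hrow : ∀ i, ∃! c : Fin n, ∀ σ ∈ S, σ i ≠ c := by
    intro i
    apply key (fun σ => σ i)
    intro σ hσ τ hτ h
    by_contra hne
    exact hd σ hσ τ hτ hne i h
  choose t ht htu using hrow
  have hcol : ∀ c, ∃! i : Fin n, ∀ σ ∈ S, σ.symm c ≠ i := by
    intro c
    apply key (fun σ => σ.symm c)
    intro σ hσ τ hτ h
    by_contra hne
    apply hd σ hσ τ hτ hne (σ.symm c)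
    rw [Equiv.apply_symm_apply]
    have h' : σ.symm c = τ.symm c := h
    rw [h', Equiv.apply_symm_apply]
  have htinj : Injective t := by
    intro i j hij
    apply (hcol (t i)).unique
    · intro σ hσ h
      exact ht i σ hσ ((Equiv.symm_apply_eq σ).mp h).symm
    · intro σ hσ h
      exact ht j σ hσ (((Equiv.symm_apply_eq σ).mp h).symm.trans hij)
  let τ : Equiv.Perm (Fin n) := Equiv.ofBijective _ (Finite.injective_iff_bijective.mp htinj)
  have hτ : ∀ i, τ i = t i := fun i => rfl
  refine ⟨τ, ?_, ?_⟩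
  · -- the symbols: each symbol `s` is used in `S` in `n - 1` different rows
    intro i j hij
    have hij' : L.symbol i (t i) = L.symbol j (t j) := hij
    have hrows : ∃! r : Fin n, ∀ σ ∈ S,
        (if h : ∃ r', L.symbol r' (σ r') = L.symbol i (t i) then h.choose else i) ≠ r := by
      apply key
      intro σ hσ σ' hσ' h
      have e1 : ∃ r', L.symbol r' (σ r') = L.symbol i (t i) :=
        (Finite.injective_iff_bijective.mp (hinj σ hσ)).2 _
      have e2 : ∃ r', L.symbol r' (σ' r') = L.symbol i (t i) :=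
        (Finite.injective_iff_bijective.mp (hinj σ' hσ')).2 _
      rw [dif_pos e1, dif_pos e2] at h
      by_contra hne
      apply hd σ hσ σ' hσ' hne e1.choose
      apply (L.row e1.choose (L.symbol i (t i))).unique e1.choose_spec
      have := e2.choose_spec
      rw [← h] at this
      exact this
    apply hrows.unique
    · intro σ hσ h
      have e1 : ∃ r', L.symbol r' (σ r') = L.symbol i (t i) :=
        (Finite.injective_iff_bijective.mp (hinj σ hσ)).2 _
      rw [dif_pos e1] at h
      have h3 := e1.choose_spec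
      rw [h] at h3
      exact ht i σ hσ ((L.row i (L.symbol i (t i))).unique h3 rfl)
    · intro σ hσ h
      have e1 : ∃ r', L.symbol r' (σ r') = L.symbol i (t i) :=
        (Finite.injective_iff_bijective.mp (hinj σ hσ)).2 _
      rw [dif_pos e1] at h
      have h3 := e1.choose_spec
      rw [h] at h3
      exact ht j σ hσ ((L.row j (L.symbol i (t i))).unique h3 hij'.symm)
  · intro σ hσ i
    rw [hτ]
    exact ht i σ hσ

/-- **Full answer to Q1.** For every even `n ≥ 10` the values of the maximum number of pairwise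
disjoint transversals of the latin squares of order `n` are exactly the numbers
`0, 1, ..., n - 2` and `n`. -/
theorem result : ∀ n : ℕ, Even n → 10 ≤ n →
    {m : ℕ | ∃ L : LatinSquare n, L.Lambda m} = {m : ℕ | m ≤ n ∧ m ≠ n - 1} := by
  intro n hn h10
  ext m
  constructor
  · rintro ⟨L, ⟨hmem, hub⟩⟩
    obtain ⟨S, hS, hinj, hd⟩ := (family_iff L m).1 hmem
    refine ⟨?_, ?_⟩
    · rw [← hS]
      exact card_le (by omega) S hd
    · rintro rfl
      classical
      obtain ⟨τ, hτ, hτd⟩ := extend L S (by omega) hinj hd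
      have hnot : τ ∉ S := by
        intro h
        exact hτd τ h ⟨0, by omega⟩ rfl
      have hn' : n ∈ {k : ℕ | ∃ F : Finset (Finset (Fin n × Fin n × Fin n)), F.card = k ∧
          (∀ T ∈ F, L.IsTransversal T) ∧
          (∀ T ∈ F, ∀ T' ∈ F, T ≠ T' → Disjoint T T')} := by
        refine (family_iff L n).2 ⟨insert τ S, ?_, ?_, ?_⟩
        · rw [Finset.card_insert_of_notMem hnot, hS]
          omega
        · intro σ hσ
          rcases Finset.mem_insert.mp hσ with rfl | h
          · exact hτ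
          · exact hinj σ h
        · intro σ hσ σ' hσ' hne i
          rcases Finset.mem_insert.mp hσ with rfl | h
          · rcases Finset.mem_insert.mp hσ' with rfl | h'
            · exact absurd rfl hne
            · exact (hτd σ' h' i).symm
          · rcases Finset.mem_insert.mp hσ' with rfl | h'
            · exact hτd σ h i
            · exact hd σ h σ' h' hne i
      have := hub hn'
      omega
  · rintro ⟨hle, hne⟩
    obtain ⟨L, hrow, hcol, ⟨S, hS, hinj, hd⟩, hmax⟩ :=
      Pool.Agent.Hhelper79.PL.main n hn h10 m (by omega)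
    have hL1 : ∀ r s : Fin n, ∃! c : Fin n, L r c = s := fun r s =>
      (Finite.injective_iff_bijective.mp (hrow r)).existsUnique s
    have hL2 : ∀ c s : Fin n, ∃! r : Fin n, L r c = s := fun c s =>
      (Finite.injective_iff_bijective.mp (hcol c)).existsUnique s
    refine ⟨⟨L, hL1, hL2⟩, ?_, ?_⟩
    · exact (family_iff _ m).2 ⟨S, hS, hinj, hd⟩
    · rintro k hk
      obtain ⟨S', hS', hinj', hd'⟩ := (family_iff _ k).1 hk
      rw [← hS']
      exact hmax S' hinj' hd'

end Pool.Agent.Results.MP_46dc5d_co.Spectrum
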